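import Pool.Agent.H472R3.NF.SysT

/-!
# Power bounds for the central Euler products of odd weight

Let `K` be a number field and, for every prime `v` of `K` of norm `q_v`, let `α_{v,j}`, `1 ≤ j ≤ d`, be
complex numbers of absolute value at most `q_v ^ (i + 1/2)` with real power sums (by Deligne the
eigenvalues of the geometric Frobenius on `H^(2 i + 1)(M)` at the places of good reduction, `0` at the
other places). Let `L(s)` be the Euler product of `∏_j (1 - α_{v,j} q_v ^ (-s))⁻¹` for
`Re s > i + 3/2`, and `EP(x)` the product of `∏_j |1 - α_{v,j} / q_v ^ (i + 1)|` over `q_v ≤ x`.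
Let `0 ≤ δ ≤ 1/2` and suppose that `L` has no holomorphic continuation without zeros to
`Re s > i + 1 + δ`. Then, for every `C`:

1. `|log EP(x)| > C x ^ δ` for arbitrarily large `x`;
2. if `L` continues meromorphically to the real points greater than `i + 1 + δ` (nothing is assumed
   off the real axis) and has no real pole there, then `log EP(x) > C x ^ δ` for arbitrarily large `x`;
3. if it continues in this way and has no real zero there, then `log EP(x) < -C x ^ δ` for
   arbitrarily large `x`.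
-/

set_option autoImplicit false

open Filter NumberField IsDedekindDomain

namespace Pool.Agent.Results.MP_148101_nt.CentralPowerBounds

open Pool.Agent.H472R3.SysT (Sys IsProd EP ZeroFreeAt)

/-- See the introduction. -/
theorem result (K : Type) [Field K] [NumberField K] (i d : ℕ)
    (α : HeightOneSpectrum (𝓞 K) → Fin d → ℂ) (h : Sys i d α)
    (F : ℂ → ℂ) (hL : ∀ s : ℂ, (i : ℝ) + 3 / 2 < s.re → IsProd d α s (F s))
    (δ : ℝ) (hδ : 0 ≤ δ) (hδ2 : δ ≤ 1 / 2) (hZ : ¬ ZeroFreeAt i d α δ) (C : ℝ) :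
    (∃ᶠ x : ℕ in atTop, C * (x : ℝ) ^ δ < |Real.log (EP i d α x)|) ∧
    ((∀ σ : ℝ, (i : ℝ) + 1 + δ < σ → MeromorphicAt F (σ : ℂ)) →
      ((∀ σ : ℝ, (i : ℝ) + 1 + δ < σ → 0 ≤ meromorphicOrderAt F (σ : ℂ)) →
        ∃ᶠ x : ℕ in atTop, C * (x : ℝ) ^ δ < Real.log (EP i d α x)) ∧
      ((∀ σ : ℝ, (i : ℝ) + 1 + δ < σ → meromorphicOrderAt F (σ : ℂ) ≤ 0) →
        ∃ᶠ x : ℕ in atTop, Real.log (EP i d α x) < -(C * (x : ℝ) ^ δ))) :=
  Pool.Agent.H472R3.SysT.sys_main h hL δ hδ hδ2 hZ C

end Pool.Agent.Results.MP_148101_nt.CentralPowerBounds
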