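import Pool.Agent.H480R3.Seg.MatT

/-!
# From the real axis to a half plane: motives `Sym^(2 j + 1) h^1(E) ⊗ ρ`

Let `E : y² = x³ + a x + b` be an elliptic curve over `ℚ`, `K` a Galois extension of `ℚ`, `ρ` a
complex representation of its Galois group with real character, and
`M = Sym^(2 j + 1) h^1(E)(j + 1) ⊗ ρ` (for rational `ρ` a Chow motive over `ℚ`, with `i` odd in the
question after the Tate twist is removed). Let `L` be its L-function without the finitely many bad
Euler factors, given by its Euler product for `Re s > 1/2`, and `EP(x)` the product of `|P_p(1)|`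
over the good primes `p ≤ x`, where `P_p` is the polynomial of Frobenius of `M`. Let
`0 ≤ δ < 1/2`.

Suppose that `L` continues analytically along the real axis to the points `σ > δ` (nothing is
assumed at other points), and that `EP(x) ≤ exp(C x^δ)` for some `C` and all large `x`. Then `L`
continues to a holomorphic function without zeros on the half plane `Re s > δ`. The same conclusion
holds if `1 / L` continues analytically along the real axis to the points `σ > δ` and
`EP(x) ≥ exp(-C x^δ)` for all large `x`.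

For `δ = 0` the conclusion is the holomorphic continuation to the right of the centre.
-/

set_option autoImplicit false

open Filter

namespace Pool.Agent.Results.MP_148101_nt.ContinuationFromRealAxis

open Pool.Agent.H480R3.Seg.Sym

/-- See the introduction. -/
theorem result (a b : ℤ) (j : ℕ) {K : Type} [Field K] [NumberField K] [IsGalois ℚ K] {n : ℕ}
    (ρ : (K ≃ₐ[ℚ] K) →* Matrix.GeneralLinearGroup (Fin n) ℂ)
    (hρ : ∀ g, (ρ g : Matrix (Fin n) (Fin n) ℂ).trace.im = 0)
    (frob : ℕ → (K ≃ₐ[ℚ] K))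
    (_hfrob : ∀ p, GoodP K a b p → Pool.Agent.H480R3.Seg.Artin.IsFrob K p (frob p))
    (L : ℂ → ℂ) (hL : IsL a b j ρ frob L) (δ C : ℝ) (hδ0 : 0 ≤ δ) (hδ : δ < 1 / 2)
    (h : ((∀ σ : ℝ, δ < σ → AnalyticAt ℂ L σ) ∧
        ∀ᶠ x : ℕ in atTop, EP a b j ρ frob x ≤ Real.exp (C * (x : ℝ) ^ δ)) ∨
      ((∀ σ : ℝ, δ < σ → AnalyticAt ℂ (fun s => (L s)⁻¹) σ) ∧
        ∀ᶠ x : ℕ in atTop, Real.exp (-(C * (x : ℝ) ^ δ)) ≤ EP a b j ρ frob x)) :
    ∃ L' : ℂ → ℂ, DifferentiableOn ℂ L' {s | δ < s.re} ∧
      (∀ s, δ < s.re → L' s ≠ 0) ∧ ∀ s, 1 / 2 < s.re → L' s = L s := by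
  by_contra hne
  have hne' : ¬ ExtD δ L := hne
  obtain ⟨h1, h2⟩ := mainD hρ hL δ hδ0 hδ hne'
  rcases h with ⟨h3, h4⟩ | ⟨h3, h4⟩
  · exact (h1 h3 C) (h4.mono fun x hx => not_lt.2 hx)
  · exact (h2 h3 C) (h4.mono fun x hx => not_lt.2 hx)

end Pool.Agent.Results.MP_148101_nt.ContinuationFromRealAxis
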