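import Pool.Agent.H126U.Mot

/-!
# Zeros and poles at the edge for the quadratic twists of a motive

`K` is any number field (the problem is the case `K = ℚ`) and `M` a Chow motive over `K`.  By
Deligne's theorem the eigenvalues `α_{v,1}, …, α_{v,n}` of the Frobenius at a good prime `v` on
`Hⁱ(M)`, a space of dimension `n`, have absolute value `q_v^{i/2}`; on the quadratic twist `M ⊗ χ_d`,
again a Chow motive with rational coefficients, they are `χ_d(v) α_{v,j}`.  The Euler product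
`Lⁱ(M ⊗ χ_d, s)` converges absolutely for `Re s > i/2 + 1`.  The theorem is stated for arbitrary
numbers `α_{v,j}` with this bound and an arbitrary real weight `w` in the place of `i`.
-/

set_option autoImplicit false

namespace Pool.Agent.Results.MP_148101_nt.TwistOrders

open NumberField IsDedekindDomain Filter Topology Polynomial

open Classical in
/-- The quadratic symbol `χ_d(v)`: zero if `v` divides `d`, otherwise `1` or `-1` as `d` is a square
modulo `v` or not.  For `v` prime to `2d` it is `1` if and only if `v` splits in `K(√d)`. -/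
noncomputable def χ {K : Type} [Field K] [NumberField K] (d : 𝓞 K)
    (v : HeightOneSpectrum (𝓞 K)) : ℤ :=
  if d ∈ v.asIdeal then 0 else if IsSquare (Ideal.Quotient.mk v.asIdeal d) then 1 else -1

open Classical in
/-- The Euler product `L(M ⊗ χ_d, s)`: at the primes `v` outside the finite set `S` the factor is
`det(1 - Frob q^{-s} | H(M ⊗ χ_d))⁻¹ = ∏_j (1 - χ_d(v) α_{v,j} q^{-s})⁻¹`; at the primes of `S`, which
contains the bad primes, it is `B_v(q^{-s})⁻¹` for a polynomial `B_v`. -/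
noncomputable def L {K : Type} [Field K] [NumberField K] {n : ℕ}
    (α : HeightOneSpectrum (𝓞 K) → Fin n → ℂ) (d : 𝓞 K)
    (S : Finset (HeightOneSpectrum (𝓞 K))) (B : HeightOneSpectrum (𝓞 K) → ℂ[X]) (s : ℂ) : ℂ :=
  ∏' v : HeightOneSpectrum (𝓞 K),
    if v ∈ S then ((B v).eval (((Ideal.absNorm v.asIdeal : ℕ) : ℂ) ^ (-s)))⁻¹
    else (∏ j, (1 - (χ d v : ℂ) * α v j * ((Ideal.absNorm v.asIdeal : ℕ) : ℂ) ^ (-s)))⁻¹

/-- **Zeros and poles at the edge of all quadratic twists of a motive.**  Let `M` be given by numbers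
`α_{v,j}`, `j = 1, …, n`, with `|α_{v,j}| ≤ q_v^{w/2}`, and let `(d k, τ k)`, `k ∈ T`, be finitely many
pairs with `d k ≠ 0` in `𝓞 K`, pairwise different as pairs (quadratic character, height): if
`d k * d l` is a square in `K` then `τ k ≠ τ l`.

1. (No hypothesis on continuation.)  For every `η > 0` and all sufficiently small `ε > 0`,
`∑_k (log |L(M ⊗ χ_{d(k)}, w/2 + 1 + iτ_k + ε)| / log(1/ε))² ≤ n² + η`.

2. If `L(M ⊗ χ_{d(k)}, s)` has, for all `k ∈ T`, a meromorphic continuation `Λ k` to a neighbourhood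
of `w/2 + 1 + iτ_k`, then the orders `m k` of these continuations are finite, `∑_k m_k² ≤ n²`, and so
at most `n²` of the functions `Λ k` have a zero or a pole at `w/2 + 1 + iτ_k`. -/
theorem result (K : Type) [Field K] [NumberField K] (n : ℕ) (hn : 0 < n) (w : ℝ)
    (α : HeightOneSpectrum (𝓞 K) → Fin n → ℂ)
    (κ : Type) (T : Finset κ) (d : κ → 𝓞 K) (τ : κ → ℝ) (hd0 : ∀ k ∈ T, d k ≠ 0)
    (hsep : ∀ k ∈ T, ∀ l ∈ T, k ≠ l → IsSquare ((d k * d l : 𝓞 K) : K) → τ k ≠ τ l)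
    (S : κ → Finset (HeightOneSpectrum (𝓞 K)))
    (hS : ∀ k ∈ T, ∀ v, v ∉ S k → 2 * d k ∉ v.asIdeal ∧
      ∀ j, ‖α v j‖ ≤ (Ideal.absNorm v.asIdeal : ℝ) ^ (w / 2))
    (B : κ → HeightOneSpectrum (𝓞 K) → ℂ[X])
    (hB : ∀ k ∈ T, ∀ v ∈ S k, (B k v).eval (((Ideal.absNorm v.asIdeal : ℕ) : ℂ) ^
      (-((w : ℂ) / 2 + 1 + τ k * Complex.I))) ≠ 0) :
    (∀ η : ℝ, 0 < η → ∀ᶠ ε : ℝ in 𝓝[>] 0,
      ∑ k ∈ T, (Real.log ‖L α (d k) (S k) (B k) ((w : ℂ) / 2 + 1 + τ k * Complex.I + ε)‖ /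
        Real.log (1 / ε)) ^ 2 ≤ (n : ℝ) ^ 2 + η) ∧
    (∀ Λ : κ → ℂ → ℂ, (∀ k ∈ T, MeromorphicAt (Λ k) ((w : ℂ) / 2 + 1 + τ k * Complex.I) ∧
      ∀ᶠ s in 𝓝 ((w : ℂ) / 2 + 1 + τ k * Complex.I), w / 2 + 1 < s.re →
        Λ k s = L α (d k) (S k) (B k) s) →
      ∃ m : κ → ℤ,
        (∀ k ∈ T, meromorphicOrderAt (Λ k) ((w : ℂ) / 2 + 1 + τ k * Complex.I) = m k) ∧
        ∑ k ∈ T, m k ^ 2 ≤ (n : ℤ) ^ 2 ∧ (T.filter fun k => m k ≠ 0).card ≤ n ^ 2) := by
  classical
  have hχ : ∀ (d : 𝓞 K) (v : HeightOneSpectrum (𝓞 K)), χ d v = Pool.Agent.H341R2.chi d v := by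
    intro d v
    unfold χ Pool.Agent.H341R2.chi
    rw [quadraticChar_apply]
    unfold quadraticCharFun
    have h1 : Ideal.Quotient.mk v.asIdeal d = 0 ↔ d ∈ v.asIdeal := Ideal.Quotient.eq_zero_iff_mem
    by_cases h : d ∈ v.asIdeal
    · rw [if_pos h, if_pos (h1.2 h)]
    · rw [if_neg h, if_neg (fun h2 => h (h1.1 h2))]
  have hL : ∀ (d : 𝓞 K) (S : Finset (HeightOneSpectrum (𝓞 K)))
      (B : HeightOneSpectrum (𝓞 K) → ℂ[X]) (s : ℂ),
      L α d S B s = Pool.Agent.H126U.Mot.LM α d S B s := by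
    intro d S B s
    unfold L Pool.Agent.H126U.Mot.LM
    refine tprod_congr fun v => ?_
    by_cases h : v ∈ S
    · rw [if_pos h, if_pos h]
      rfl
    · rw [if_neg h, if_neg h, hχ]
      rfl
  obtain ⟨h1, h2⟩ := Pool.Agent.H126U.Mot.main hn α w T d τ hd0 hsep S
    (fun k hk v hv => (hS k hk v hv).2) B hB
  simp only [hL]
  refine ⟨h1, fun Λ hΛ => ?_⟩
  obtain ⟨m, hm1, hm2⟩ := h2 Λ hΛ
  refine ⟨m, hm1, hm2, ?_⟩
  have h5 : ((T.filter fun k => m k ≠ 0).card : ℤ) ≤ ∑ k ∈ T, m k ^ 2 := by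
    rw [Finset.card_eq_sum_ones]
    push_cast
    rw [Finset.sum_filter]
    refine Finset.sum_le_sum fun k _ => ?_
    split_ifs with h6
    · have := Int.one_le_abs h6
      nlinarith [sq_abs (m k)]
    · positivity
  exact_mod_cast h5.trans hm2

end Pool.Agent.Results.MP_148101_nt.TwistOrders
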